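import Pool.Agent.V8H93.PM.Conv

set_option autoImplicit false

/-!
# 1-motives whose abelian part has a centre of abelian type

Let `A` be an abelian variety over the field `ℚ̄` of algebraic numbers, and let `M = [ℤ^n → G]` be a 1-motive
over `ℚ̄`, where `G` is an extension of `A` by a torus, given by algebraic points `P_i = exp(u_i)` of `A`,
`Q_l = φ(exp(v_l))` of the dual abelian variety, and by the logarithms `ℓ_il` (see
`Pool/Agent/N208/OU/Defs.lean`, and the starting files OneMotivesMumfordTate and UnitaryOneMotives). Its
periods are `2 π i`, the periods and quasi-periods of `A`, the abelian integrals `u_i` and the integrals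
of the second kind `h_k(u_i)`, the periods of the third kind `∑ k, (h_k(v_l) λ_k - v_lk η_k)`, and the
integrals of the third kind `ℓ_il`. The motivic Galois group of `M` is the Mumford-Tate group `MT(M)` of the
mixed Hodge structure `H_1(M)` (Brylinski, André).

The period conjecture says that the comparison isomorphism is a generic point, over `ℚ̄`, of its
torsor under the motivic Galois group of `M`. A consequence is that every algebraic group
`G ⊆ GL(H_B(M))` over `ℚ`, with a torsor over `ℚ̄` which contains the comparison isomorphism,
contains the group `MT(M)` (in the terminology of André: `Ω^And = Ω^dRB`, for `M` and for all motives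
in the tensor category generated by `M`).

**Theorem.** Let `A` be a direct factor of an abelian variety `C` over `ℚ̄` such that the centre `𝔷` of the Lie
algebra `𝔤` of the Hodge group of `C` is of abelian type (`AbelianCentre`, see `Pool/Agent/V8H93/PM/Defs.lean`; this is the
condition of `MP_caab05_ag.AbelianCentres` by helper77). Let `M` be any 1-motive with the abelian part `A`, and
let `G` be an algebraic group over `ℚ` with a torsor over `ℚ̄` which contains the comparison isomorphism of `M`.

1. `G` contains `exp (t Z)`, for all complex numbers `t` and all `Z` in the Lie algebra of `MT(M)` which act
   on the homology of `A` as an element of `𝔷`, up to a scalar. This is an extension of the connected centre of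
   `MT(A)` by the unipotent radical of `MT(M)`: it is (the connected component of) the radical of `MT(M)`
   if `A = C`, or if the centre of the Hodge Lie algebra of `A` is the image of `𝔷`. Nothing is assumed about the semisimple
   part of `𝔤`, and on the points of `M`.
2. If `𝔤` is commutative (`C` has complex multiplication) then `G` contains `MT(M)`.
3. If `C` has a direct factor `B` which is determined by its endomorphisms (`Determined`, the condition of
   OneMotivesMumfordTate), and `𝔤` acts on the complement of `B` by commuting endomorphisms, then `G`
   contains `MT(M)`.
4. If `C` has a unitary part at the places of a finite set `S`, and the part of the Hodge group of `C`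
   which acts trivially on the eigenspaces given by `S` acts trivially on the Mumford-Tate domain of `A`
   (`UnitaryPart` and `DomainOf`, as in UnitaryOneMotives) then `G` contains `MT(M)`.

**Examples.** Let `L` be a CM field with an abelian Galois group `Γ = Gal(L / ℚ)`, and let `C₂` be the product of
the abelian varieties `A_Φ` with multiplication by `L`, for all CM types `Φ` of `L`. Then `C₂` satisfies the conditions (see
`MP_caab05_ag.AbelianCentres`), and so does `B × C₂` if `B` is an abelian variety such that the centre of
`End(B) ⊗ ℚ` is a product of totally real fields and of CM fields contained in `L`. So `G` contains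
`MT(M)`, `Ω^And = Ω^dRB`, for *all* 1-motives `M` over `ℚ̄` whose abelian part `A` is isogenous to

* (part 2) a product of abelian varieties with complex multiplication by abelian fields, for example the Jacobian of
  a Fermat curve `x^N + y^N = 1`, of a curve `y^N = x^a (1 - x)^b`, or the abelian part of the relative cohomology
  `H^1(F_N ∖ S, T)` of such a curve, with arbitrary finite sets `S`, `T` of algebraic points. The periods of these
  1-motives are, besides the values of the beta function, the integrals of arbitrary
  differential forms on these curves, for example of `x^(a - 1) (1 - x)^(b - 1) R(x, (1 - x)^(1 / N)) dx` between algebraic points;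
* (part 3) a product of such abelian varieties and of arbitrary elliptic curves, abelian surfaces with quaternion
  multiplication and abelian varieties with real multiplication (these products are determined, by
  OneMotivesMumfordTate), or of Kuga-Satake varieties of K3 surfaces;
* (part 4) a product of an abelian variety `A₁` with complex multiplication by `L` in the centre of the endomorphisms,
  of signature `(1, n)` at the places of `S` (or with a division algebra of prime degree as the commutant), and
  of abelian varieties with complex multiplication by `L`.

The 1-motives over `A` up to isogeny are only limited by the condition that the arguments of the theta functions are not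
in the divisor of `θ`. The deficient 1-motives of Ribet and Jacquinot are included. The special case
`n = s = 0` of part 2, and the case of an arbitrary pure motive generated by `C`, is `MP_caab05_ag.AbelianCentres`
(helper77). The 1-motives with an abelian part with complex multiplication were known only in the cases that the
centre `𝔷` has no proper algebraic subalgebras (OneMotivesMumfordTate), or is rigid (UnitaryOneMotives), which was
known for a few CM fields of small degree and cyclic fields whose degree is a power of two. The parallel
work VisibleDomains (helper91) contains `MT(M) ⊆ G` for abelian varieties with other visible parts of the derived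
algebra (spin, middle exterior powers, planes), with centres of abelian type among the conditions; parts 1, 3 and 4
are not contained in it.

**Centres of abelian type.** There are a finite abelian group `Γ` (written additively), an element
`c ∈ Γ` with `2 c = 0`, and functions `ε γ : 𝔷 → ℂ`, for `γ ∈ Γ`, such that `ε (c + γ) = - ε γ`; the
translations are given by automorphisms of `ℂ`: for all `γ` there is `σ` with
`σ (ε γ' (X)) = ε (γ + γ') (X)`; all types occur: for all subsets `Φ` of `Γ` which contain exactly one of
`γ`, `c + γ` for all `γ`, there is a common eigenvector of `𝔷` in `H_1(C, ℂ)`, annihilated by `[𝔤, 𝔤]`,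
with the eigenvalues `∑ γ ∈ Φ, ε γ (X)`, and these are different functions for different types; the
eigenvalues of all common eigenvectors of `𝔷` in `H_1(C, ℂ)` are linear combinations with rational
coefficients of the `ε γ (X)`.

## Proof

The Lie algebra `𝔥` of the endomorphisms of `H_1(A, ℚ)` given by the elements of the Lie algebra of `G`, up to weights,
is closed under replicas (`R917.DT.aa_RC`) and contains the logarithmic derivatives of the periods. Let `𝔮` be the Lie algebra of
the elements of `𝔤` whose restriction to `H_1(A, ℚ)` is in `𝔥`. It acts semisimply on `H_1(C, ℚ)`, with the same
commutant as `𝔤`, and it is closed under replicas. Since the centre is rigid (`AbCen.rigid` by helper77) we have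
`𝔷 ⊆ 𝔮` (`OU.CN_le`). In part 1 the normalizer argument of UnitaryOneMotives (`OU.LL_gQ`) gives the statement. For the
other parts we need `[𝔤, 𝔤] ⊆ 𝔮`, since then the complex structure of `A` is in `𝔥 ⊗ ℝ` (`detJ_of_der`), and the complex
structure of the 1-motive is in the complex span of the Lie algebra of `G` (`hodge_stab6`). In part 3 (`der_le_of_fac`) we show that the
restrictions of the elements of `𝔮` to the factor `B` are closed under replicas: if `X ∈ 𝔮` and `X` is diagonalizable
on `B` then it is diagonalizable, since `X` acts on the complement of `B` as an element of the centre. So the
restrictions of `𝔮` to `B` are the whole Hodge Lie algebra of `B`, and `[𝔮, 𝔮] = [𝔤, 𝔤]`.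
-/

open Module Matrix Pool.Agent.Y102 Pool.Agent.R917.OM Pool.Agent.N208.OneM Pool.Agent.V8H93.PM

noncomputable section

namespace Pool.Agent.Results.MP_5d33ca_ag.AbelianTypeOneMotives

/-- **Theorem.** Let `M` be a 1-motive over `ℚ̄` with the abelian part `A`, and let `G` be an algebraic
group over `ℚ` with a torsor over `ℚ̄` which contains the comparison isomorphism of `M`. Let `A` be a direct
factor of an abelian variety `C` such that the centre of the Lie algebra `𝔤` of the Hodge group of `C` is
of abelian type.

1. Let `Z` be an element of the Lie algebra of the Mumford-Tate group of `M` which acts on the homology of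
   `A` as an element of the centre of `𝔤`, up to a scalar. Then `exp (t Z)` is in `G` for all `t`.
2. If `𝔤` is commutative then `G` contains the Mumford-Tate group of `M`.
3. If `𝔤` is commutative on the complement of a determined factor of `C` then `G` contains the Mumford-Tate
   group of `M`.
4. Let `C` have a unitary part at the places of `S`, such that the part of the Hodge group of `C` which acts
   trivially on the eigenspaces for `± i a`, `a ∈ S`, acts trivially on the Mumford-Tate domain of `A`. Then
   `G` contains the Mumford-Tate group of `M`. -/
theorem result (g n s : ℕ) (A : AbVarG g) (u : Fin n → Fin g → ℂ) (v : Fin s → Fin g → ℂ)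
    (ℓ : Fin n → Fin s → ℂ) (hM : IsOneMotive A u v ℓ)
    (G : Subgroup (GL (Betti g n s) ℂ)) (hG : IsAlgebraicSubgroup G)
    (hP : ContainsPeriods A u v ℓ G) (g' : ℕ) (C : AbVar g') (f : A.toAbVar.H1 →ₗ[ℚ] C.H1)
    (p : C.H1 →ₗ[ℚ] A.toAbVar.H1) (hF : IsFactor A.toAbVar C f p)
    (Γ : Type) [AddCommGroup Γ] [Fintype Γ] (c : Γ) (ε : Γ → EndQ C → ℂ)
    (hC : AbelianCentre C c ε) :
    (∀ X, InCentre C X → ∀ Z ∈ mtLie A u v ℓ, ∀ q : ℚ, ActsAs A Z (restr A.toAbVar C f p X) q →
      ∀ t : ℂ, IsIn G (NormedSpace.exp (t • cplx Z))) ∧
    ((∀ X Y, InLie C X → InLie C Y → Cm C X Y) → mumfordTate A u v ℓ ≤ G) ∧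
    (∀ (g₁ : ℕ) (B : AbVar g₁) (f₁ : B.H1 →ₗ[ℚ] C.H1) (p₁ : C.H1 →ₗ[ℚ] B.H1),
      IsFactor B C f₁ p₁ → Determined B → CommutesOff C B f₁ p₁ → mumfordTate A u v ℓ ≤ G) ∧
    (∀ (z : EndQ C) (S : Finset ℝ), UnitaryPart C z S → DomainOf A.toAbVar C f p z S →
      mumfordTate A u v ℓ ≤ G) :=
  main_all g n s A u v ℓ hM G hG hP g' C f p hF Γ c ε hC

end Pool.Agent.Results.MP_5d33ca_ag.AbelianTypeOneMotives
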