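import Pool.Agent.V8H93.LK.Sharp

set_option autoImplicit false

/-!
# Logarithms of algebraic numbers and the period torsor of an arbitrary motive

Let `x_1, …, x_n` be logarithms of algebraic numbers, and let `M_x = [ℤ^n → G_m]` be the Kummer 1-motive
over `ℚ̄` given by the numbers `exp (x_i)`. Its periods are `2 π i` and the `x_i`. Let `N` be **any** motive
over `ℚ̄` (a Nori motive, pure or mixed, of a variety of general type, of a modular form, a mixed Tate motive whose periods
are multiple zeta values, …), of rank `d`. More generally let `V` be any de Rham-Betti structure of rank `d`
over `ℚ̄` (`Structure`): a vector space over `ℚ` and a vector space over `ℚ̄`, of dimension `d`, with an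
isomorphism of their complexifications. We determine how many logarithms can be related to `V`. Nothing is
assumed about periods.

**Theorem.**
1. For every `V` of rank `d` there is a vector space `Γ` over `ℚ`, consisting of logarithms of algebraic
   numbers and containing `2 π i`, of dimension at most `1 + ⌊d² / 4⌋`, such that the Kummer motives split
   off outside of `Γ` (`SplitsOff`): let `x_1, …, x_n` be *any* logarithms of algebraic numbers, and let `G` be
   an algebraic group over `ℚ` with a torsor over `ℚ̄` which contains the comparison isomorphism of `M_x ⊕ V`.
   Then `G` contains the vector group of all `(c_1, …, c_n) ∈ ℂ^n` which satisfy the linear relations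
   over `ℚ` which hold for the `x_i` modulo `Γ` (`c` acts on the Betti realization of `M_x` by adding `c_i` times the
   loop around the origin to the path with the end point `exp (x_i)`, and trivially on `V`).
   In particular, if the `x_i` are linearly independent modulo `Γ` then `G` contains `G_a^n × 1`.
2. If `V` is semisimple, then one can take `Γ = ℚ · 2 π i`: if the numbers `exp (x_i)` are multiplicatively
   independent then `G` contains `G_a^n × 1`, the whole unipotent radical of the motivic Galois group of `M_x`.
3. The bound is optimal for each `d`: there is a `V` of rank `d` such that every finite-dimensional `Γ` with the property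
   in part 1 has dimension at least `1 + ⌊d² / 4⌋`. (It is the Kummer motive `[ℤ^a → G_m^b]` given by the
   logarithms of `a b` prime numbers, with `a = ⌊d / 2⌋` and `b = d - a`.)

## What this says about the period conjecture

Let `G_dRB(N)` be the smallest group `G` with a torsor over `ℚ̄` which contains the comparison isomorphism
of `N`. Grothendieck's conjecture for `N` says that the comparison isomorphism is a generic point of the
torsor of the motivic Galois group; in particular `G_dRB(N) = G_mot(N)` (in the terminology of André:
`Ω^dRB = Ω^mot`). For all motives `N` of rank `d` and all tuples `x` of logarithms of algebraic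
numbers which are independent modulo `Γ(N)` we get: `G_dRB(M_x ⊕ N)` is the full inverse image of
`G_dRB(ℚ(1) ⊕ N)`, with the kernel `G_a^n`. Since `G_mot(M_x ⊕ N) → G_mot(ℚ(1) ⊕ N)` has a kernel contained
in `G_a^n`, **the equality `G_dRB = G_mot` for `M_x ⊕ N` is equivalent to the equality for `ℚ(1) ⊕ N`.**
So among the logarithms of algebraic numbers (a space over `ℚ` of infinite dimension) at most `1 + ⌊d² / 4⌋`
independent ones can have exceptional relations with the periods of `N`, in the sense of the torsors; and only the rational
multiples of `2 π i` if the de Rham-Betti realization of `N` is semisimple. This is conjecturally true for all pure motives; it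
is known (Wüstholz) for the motives generated by abelian varieties, and trivially true for `d = 1`.

Together with the starting file `SplitOneMotives`, where the conjecture for `M ⊕ N` is reduced to the conjecture for
`T(M) ⊕ N`, `M` a 1-motive over a product of elliptic curves without complex multiplication or of Kuga-Satake
varieties outside of an exceptional set, and `T(M)` the Kummer motive generated by `M`, this gives a reduction to `ℚ(1) ⊕ N`; similarly
together with `MP_ae0f86_nt.GenericPoints`.

## Proof

Let `D` be a derivation of `ℂ` over `ℚ̄`, and `λ : ℂ → ℚ` a linear form. Let `P` be the matrix of the periods of `V`, and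
`X(D, λ) = λ(D(P) P⁻¹)`, `w(D, λ) = λ(D(2 π i) / (2 π i))`, `t_x(D, λ) = λ(D(x) / (2 π i))`. Let `𝔩` be the Lie algebra
generated by the elements `(X(D, λ), w(D, λ), (t_x(D, λ))_x)`; it acts on all the structures `M_x ⊕ V`, and is
contained in the Lie algebra of `G` for all `G` as above. The `t_x` are cocycles:
`t_x([a, b]) = w(b) t_x(a) - w(a) t_x(b)`. Let `Γ` be the space of the logarithms `x` such that
`t_x` vanishes on the elements of `𝔩` which act trivially on `V ⊕ ℚ(1)`. The exponentials of these elements give the
vector group in part 1 (`splits`).

The map `x ↦ t_x` is injective on the logarithms of algebraic numbers: otherwise `D(x) = 0` for all `D`, so `x` is algebraic,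
and `x = 0` by the theorem of Lindemann. Let `z ∈ 𝔩` be an element with `w(z) = 1`; it exists since `π` is transcendental. For
`x ∈ Γ` we may assume `t_x(z) = 0`, after adding a multiple of `2 π i`. Then `t_x([a, z]) = t_x(a)`, and `t_x` factors
through the image of `𝔩` in `End(V)`. So the space of these `t_x` has at most the dimension of
the space of the matrices `Y` with `[Y, Z] = Y`, where `Z` is the image of `z` (`finrank_TT`). If `d_μ` is the dimension of the generalized
eigenspace of `Z` for the eigenvalue `μ`, then the dimension of this space is at most `∑ d_μ d_{μ - 1}`. We colour the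
eigenvalues by the parity of `⌊Re μ⌋`; then each pair `(μ, μ - 1)` has different colours, and the sum is at most
`d' d''` with `d' + d'' = d` (`card_pairs`).

If `V` is semisimple then the image `𝔥` of `𝔩` in `End(V) × End(ℚ(1))` is reductive, and the character `w` does not vanish on
the centre of `𝔥` (`exists_central`, with the nondegenerate trace form of the Lie algebra generated by `𝔥` and the algebra
generated by its centre). A central element `z` with `w(z) = 1` gives `t_x(a) = w(a) t_x(z)` for `x ∈ Γ`, so that `x` is a multiple of
`2 π i` (`Gam_semi`).

In part 3 the group of the pairs `(y, (μ, u))`, where `(μ, u)` acts on `[ℤ^a → G_m^b]` and `y = s (μ - 1) + ∑ C_ij u_ij`, contains the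
periods of `M_x ⊕ V` for `x = s 2 π i + ∑ C_ij ℓ_ij`, up to an algebraic matrix, and it does not contain `G_a × 1`. The logarithms of the prime
numbers and `2 π i` are linearly independent.
-/

open Module Matrix Pool.Agent.V8H93.LK

noncomputable section

namespace Pool.Agent.Results.MP_5d33ca_ag.KummerSplitting

/-- **Theorem.**
1. For every de Rham-Betti structure `V` of rank `d` over `ℚ̄` there is a space `Γ` of logarithms of algebraic
   numbers, of dimension at most `1 + ⌊d² / 4⌋`, which contains `2 π i`, such that the Kummer motives split off
   from `V` outside of `Γ`.
2. If `V` is semisimple then the Kummer motives split off from `V` outside of `ℚ · 2 π i`.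
3. The bound is optimal: for all `d` there is a structure `V` of rank `d` such that all spaces `Γ` of finite
   dimension, outside of which the Kummer motives split off from `V`, have dimension at least
   `1 + ⌊d² / 4⌋`. -/
theorem result :
    (∀ (d : ℕ) (V : Structure d), ∃ Γ : Submodule ℚ ℂ, (∀ x ∈ Γ, IsLog x) ∧ twoPiI ∈ Γ ∧
      FiniteDimensional ℚ Γ ∧ finrank ℚ Γ ≤ 1 + d ^ 2 / 4 ∧ SplitsOff V Γ) ∧
    (∀ (d : ℕ) (V : Structure d), V.Semisimple → SplitsOff V (Submodule.span ℚ {twoPiI})) ∧
    (∀ d : ℕ, ∃ V : Structure d, ∀ Γ : Submodule ℚ ℂ, FiniteDimensional ℚ Γ → SplitsOff V Γ →
      1 + d ^ 2 / 4 ≤ finrank ℚ Γ) :=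
  ⟨fun _ V => ⟨Gam (XV V), fun _ hx => Gam_le hx, tau_mem_Gam, finrank_Gam.1, finrank_Gam.2,
    splits V⟩, fun _ V hV => splits_semi V hV, sharp⟩

end Pool.Agent.Results.MP_5d33ca_ag.KummerSplitting
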