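import Mathlib
import Pool.Agent.X255.RH.Main
import Pool.Agent.Y776.Fam.MainT
import Pool.Agent.TH813.EKPer

/-!
# The period conjecture for 1-motives and iterated integrals over random number fields, all conjugates together

Let `E_x : y² = 4 X³ - g₂(x) X - g₃(x)` be a family of elliptic curves whose invariants are algebraic functions of `x`
and whose `j` is not constant, let `P_1, …, P_r` be algebraic sections which are independent modulo torsion, and let
`t_1, …, t_s` be a tower of integrals: the derivative of `t_k` is algebraic over `ℂ(x, t_1, …, t_(k-1))`, and the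
functions `x, t_1, …, t_s` are algebraically independent. (Examples: logarithms of algebraic functions, integrals of the
first, second and third kind on fixed curves of any genus between points depending on `x`, multiple polylogarithms and
all iterated integrals of algebraic differentials.) Then `ω₁, ω₂, η₁` (periods and quasi-periods of `E_x`; `η₂` is
determined by Legendre's relation), the elliptic logarithms `u_i` of `P_i`, the integrals of the second kind `ζ(u_i)`,
the integrals of the third kind `S_k = log σ(∑ N_i u_i)` and `t_k` are built from the periods of Nori motives `M_x` over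
the field generated by `x` (sums of 1-motives `[ℤ^a → G]`, `G` an extension of a power of `E_x` by a torus, and of the
motives of the tower).

An integral polynomial of degree `g` with simple roots defines the étale algebra `k = ℚ[X]/(f)`, a number field if the
polynomial is irreducible; its embeddings in `ℂ` correspond to the roots `x_1, …, x_g`, and the periods of the
restriction of scalars of `M_x` from `k` to `ℚ` are the periods of all the conjugates `M_{x_1}, …, M_{x_g}`. The period
conjecture for this motive (together with any fixed motive, whose periods are the constants `ξ` below) says that in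
general the `g (3 + 2 r + s + q)` numbers below are algebraically independent, for ALL the conjugates together.

We prove: for almost all integral polynomials of degree `g` with coefficients at most `T`, that is for almost all
number fields of degree `g` with a generator `x` in this sense, all these numbers at all the roots together satisfy no
algebraic relation whose degree is at most `ω(T)`, with coefficients in number fields of degree at most `ω(T)` (for
instance the splitting field of the polynomial) and of height at most `T ^ ω(T)`, relative to `ω(T)` arbitrary complex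
numbers, for instance the monomials in `2πi` and in the periods of any other motive; here `ω(T) → ∞`. If the complement
of the domain `U` of the family is thin (for instance a locally finite set, or contained in the real line with locally
finite boundary) all the roots in `U` are admitted; in general the roots in a sequence of compact subsets.

The proof is an application of `Pool.Agent.X255.RH.main_all` (values of algebraically independent functions at the roots
of almost all polynomials) and of `Pool.Agent.Y776.Fam.fam_locIndT` (the independence of the functions).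
-/

set_option autoImplicit false

open Polynomial Filter Topology NumberField
open scoped PeriodPair

namespace Pool.Agent.Results.MP_5d33ca_ag.RandomNumberFields

/-! ### The families -/

/-- The Weierstrass zeta function `ζ(z) = ∑ (1/(z-l) + 1/l + z/l²)`, the sum over the lattice (the summand of `l = 0` is
`1/z`, since `1/0 = 0` in Lean). -/
noncomputable def ζ (L : PeriodPair) (z : ℂ) : ℂ :=
  ∑' l : L.lattice, (1 / (z - l) + 1 / l + z / l ^ 2)

/-- The Weierstrass sigma function `σ(z) = z ∏ (1 - z/l) exp(z/l + z²/(2 l²))`, the product over the lattice (the factor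
of `l = 0` is `1`, since `z/0 = 0` in Lean). -/
noncomputable def σ (L : PeriodPair) (z : ℂ) : ℂ :=
  z * ∏' l : L.lattice, ((1 - z / l) * Complex.exp (z / l + (z / l) ^ 2 / 2))

/-- The function `f` is algebraic over `ℂ(z)` on the set `U`. -/
def Algebraic (U : Set ℂ) (f : ℂ → ℂ) : Prop :=
  ∃ P : MvPolynomial (Fin 2) ℂ, P ≠ 0 ∧ ∀ z ∈ U, MvPolynomial.eval ![z, f z] P = 0

/-- A family of elliptic curves `ℂ / Λ_z` with points `P_i = (℘(u_i), ℘'(u_i))`, a tower of functions `t_k`, and
branches `S_k` of `log σ(∑ N_ki u_i)`. -/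
structure Family (U : Set ℂ) (Λ : ℂ → PeriodPair) {r s q : ℕ} (u : Fin r → ℂ → ℂ) (t : Fin s → ℂ → ℂ)
    (N : Fin q → Fin r → ℤ) (S : Fin q → ℂ → ℂ) : Prop where
  isOpen : IsOpen U
  isPreconnected : IsPreconnected U
  nonempty : U.Nonempty
  /-- the lattice depends analytically on `z` -/
  analytic₁ : AnalyticOnNhd ℂ (fun z => (Λ z).ω₁) U
  analytic₂ : AnalyticOnNhd ℂ (fun z => (Λ z).ω₂) U
  /-- the invariants are algebraic functions -/
  algebraic₂ : Algebraic U (fun z => (Λ z).g₂)
  algebraic₃ : Algebraic U (fun z => (Λ z).g₃)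
  /-- `j` is not constant: `g₂³` and `g₃²` are linearly independent -/
  nonconstant : ∀ a b : ℂ, (∀ z ∈ U, a * (Λ z).g₂ ^ 3 = b * (Λ z).g₃ ^ 2) → a = 0 ∧ b = 0
  /-- the points are given by analytic functions `u_i`; they are not zero and their coordinates are algebraic -/
  point : ∀ i, AnalyticOnNhd ℂ (u i) U
  point_ne : ∀ i, ∀ z ∈ U, u i z ∉ (Λ z).lattice
  point_alg : ∀ i, Algebraic U (fun z => ℘[Λ z] (u i z))
  /-- the points are independent modulo torsion -/
  point_ind : ∀ n : Fin r → ℤ, (∀ z ∈ U, ∑ i, (n i : ℂ) * u i z ∈ (Λ z).lattice) → n = 0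
  /-- the derivative of the analytic function `t_k` is algebraic over `ℂ(z, t_1, …, t_(k-1))`: there is a nonzero
  polynomial relation between `z`, the derivative, and `t_1, …, t_(k-1)` -/
  tower : ∀ k, AnalyticOnNhd ℂ (t k) U
  tower_deriv : ∀ k : Fin s, ∃ P : MvPolynomial (Fin 2 ⊕ Fin k) ℂ, P ≠ 0 ∧ ∀ z ∈ U,
    MvPolynomial.eval (Sum.elim ![z, deriv (t k) z] (fun j => t (Fin.castLE k.isLt.le j) z)) P = 0
  /-- the functions `z, t_1, …, t_s` are algebraically independent over `ℂ` -/
  tower_ind : ∀ P : MvPolynomial (Option (Fin s)) ℂ,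
    (∀ z ∈ U, MvPolynomial.eval (fun o : Option (Fin s) => o.elim z (fun k => t k z)) P = 0) → P = 0
  /-- `S_k` is a logarithm of `σ(∑ N_ki u_i)` -/
  sigma : ∀ k, AnalyticOnNhd ℂ (S k) U
  sigma_exp : ∀ k, ∀ z ∈ U, Complex.exp (S k z) = σ (Λ z) (∑ i, (N k i : ℂ) * u i z)
  /-- the quadratic forms `(∑ N_ki X_i)²` are linearly independent -/
  sigma_ind : ∀ c : Fin q → ℤ, (∀ i j, ∑ k, c k * (N k i * N k j) = 0) → c = 0

/-- The names of the numbers. -/
abbrev Names (r s q : ℕ) : Type := Fin 3 ⊕ (Fin r ⊕ (Fin r ⊕ (Fin s ⊕ Fin q)))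

/-- The numbers `ω₁, ω₂, η₁ = 2 ζ(ω₁ / 2), u_i, ζ(u_i), t_k, S_k` at the point `z`. -/
noncomputable def periods (Λ : ℂ → PeriodPair) {r s q : ℕ} (u : Fin r → ℂ → ℂ) (t : Fin s → ℂ → ℂ)
    (S : Fin q → ℂ → ℂ) (z : ℂ) : Names r s q → ℂ :=
  Sum.elim ![(Λ z).ω₁, (Λ z).ω₂, 2 * ζ (Λ z) ((Λ z).ω₁ / 2)] (Sum.elim (fun i => u i z)
    (Sum.elim (fun i => ζ (Λ z) (u i z)) (Sum.elim (fun k => t k z) (fun k => S k z))))

/-! ### The polynomials and their roots -/

/-- The integral vectors `a = (a_0, …, a_g)` with `|a_i| ≤ T`. -/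
noncomputable def box (g T : ℕ) : Finset (Fin (g + 1) → ℤ) := Fintype.piFinset fun _ => Finset.Icc (-(T : ℤ)) (T : ℤ)

/-- The polynomial `a_0 + a_1 x + … + a_g x^g`. -/
noncomputable def poly {g : ℕ} (a : Fin (g + 1) → ℤ) : ℂ[X] := ∑ i, C (a i : ℂ) * X ^ (i : ℕ)

/-- The roots of the polynomial in the set `K`. -/
noncomputable def roots {g : ℕ} (K : Set ℂ) (a : Fin (g + 1) → ℤ) : Finset ℂ := by
  classical exact (poly a).roots.toFinset.filter fun z => z ∈ K

/-- `K` is a subset of `U`, and the part of the boundary of `U` near `K` is thin: there are a locally finite set `D` and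
`c > 0` such that the distance of a point `z` of `K` from a point outside `U` is at least the distance of `z` from a
point of `D`, or at least `|im z|`, `z` not real, or at least `c`. This is so for every compact subset `K` of the open
set `U`, and for `K = U` if the complement of `U` is locally finite, or contained in the real line with a locally finite
boundary there. -/
def Thin (K U : Set ℂ) : Prop :=
  K ⊆ U ∧ ∃ (D : Set ℂ) (c : ℝ), 0 < c ∧ (∀ R : ℝ, (D ∩ Metric.closedBall 0 R).Finite) ∧
    ∀ z ∈ K, ∀ w, w ∉ U → (∃ p ∈ D, ‖z - p‖ ≤ ‖z - w‖) ∨ (z.im ≠ 0 ∧ |z.im| ≤ ‖z - w‖) ∨ c ≤ ‖z - w‖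

/-- the compact subsets of an open set -/
theorem thin_of_isCompact {K U : Set ℂ} (hK : IsCompact K) (hU : IsOpen U) (h : K ⊆ U) : Thin K U := by
  obtain ⟨δ, hδ, hδU⟩ := hK.exists_thickening_subset_open hU h
  refine ⟨h, ∅, δ, hδ, fun R => by simp, fun z hz w hw => Or.inr (Or.inr ?_)⟩
  by_contra hlt
  push Not at hlt
  apply hw
  apply hδU
  rw [Metric.mem_thickening_iff]
  refine ⟨z, hz, ?_⟩
  rw [dist_comm, dist_eq_norm]
  exact hlt

/-- The numbers `x q` satisfy no relation of degree at most `k` in each of them with coefficients `∑_{b < k} ξ_b c_b`, where the `c_b` are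
integers of a number field of degree at most `k` all of whose conjugates are at most `T ^ k`, except the relations all of whose coefficients
vanish. -/
def NoRelation {Q : Type} [Fintype Q] [DecidableEq Q] (ξ : ℕ → ℂ) (k : ℕ) (T : ℝ) (x : Q → ℂ) : Prop :=
  ∀ (F : Type) [Field F] [NumberField F], Module.finrank ℚ F ≤ k → ∀ (io : F →+* ℂ)
    (c : (Q → Fin (k + 1)) → Fin k → 𝓞 F), (∀ l b (φ : F →+* ℂ), ‖φ (c l b : F)‖ ≤ T ^ k) →
    ∑ l, (∑ b : Fin k, ξ b * io (c l b : F)) * ∏ q, x q ^ (l q : ℕ) = 0 → ∀ l, ∑ b : Fin k, ξ b * io (c l b : F) = 0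

/-- The polynomial with the coefficients `a` has degree `g` and simple roots, and there is no relation between the numbers `periods` at all its
roots in `K` together. -/
def Good {g r s q : ℕ} (K : Set ℂ) (Λ : ℂ → PeriodPair) (u : Fin r → ℂ → ℂ) (t : Fin s → ℂ → ℂ) (S : Fin q → ℂ → ℂ) (ξ : ℕ → ℂ) (k : ℕ)
    (T : ℝ) (a : Fin (g + 1) → ℤ) : Prop :=
  a (Fin.last g) ≠ 0 ∧ (poly a).Separable ∧
    NoRelation ξ k T fun v : {x // x ∈ roots K a} × Names r s q => periods Λ u t S v.1 v.2

section

variable {U : Set ℂ} {Λ : ℂ → PeriodPair} {r s q : ℕ} {u : Fin r → ℂ → ℂ} {t : Fin s → ℂ → ℂ}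
  {N : Fin q → Fin r → ℤ} {S : Fin q → ℂ → ℂ}

theorem Family.fm (h : Family U Λ u t N S) : Pool.Agent.Y776.Fam.FmT U Λ u t N S :=
  ⟨{ isOpen := h.isOpen, conn := h.isPreconnected, an₁ := h.analytic₁, an₂ := h.analytic₂
     ni := h.nonconstant, ag2 := h.algebraic₂, ag3 := h.algebraic₃, ua := h.point
     un := h.point_ne, uw := h.point_alg, ui := h.point_ind, la := fun k => k.elim0
     le := fun k => k.elim0, li := fun _ _ _ => Subsingleton.elim _ _
     Sa := h.sigma, Se := h.sigma_exp, Ni := h.sigma_ind },
    h.tower, h.tower_deriv, h.tower_ind⟩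

theorem periods_eq (z : ℂ) (i : Names r s q) : periods Λ u t S z i = Pool.Agent.Y776.Fam.yfam Λ u t S i z := by
  rcases i with a | i | i | k | k
  · fin_cases a
    · rfl
    · rfl
    · exact (Pool.Agent.TH813.Ell.eta_half (Λ z).ω₁_mem_lattice (Pool.Agent.TH813.Ell.half₁ (Λ z))).symm
  all_goals rfl

theorem indep (h : Family U Λ u t N S) : Pool.Agent.X255.RH.Indep U (Pool.Agent.Y776.Fam.yfam Λ u t S) := by
  obtain ⟨z₀, hz₀⟩ := h.nonempty
  refine Pool.Agent.X255.RH.indep_of_aindepS fun P hP => ?_
  refine Pool.Agent.Y776.Fam.fam_locIndT h.fm hz₀ P ?_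
  filter_upwards [h.isOpen.mem_nhds hz₀] with z hz
  exact hP z hz

end

open scoped Classical in
/-- **All conjugates over almost all number fields of degree `g`.** For every family, every `g ≥ 1`, all complex numbers `ξ_0, ξ_1, …` and every
sequence of sets `K_0, K_1, …` with `Thin (K_k) U` (for instance compact subsets of `U`) there is a function `ω(T) → ∞` such that among the
`(2 T + 1)^(g + 1)` integral polynomials with coefficients at most `T` at most the proportion `1 / ω(T)` is not good, the roots in `K_(ω(T))`
being considered. -/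
theorem result {U : Set ℂ} {Λ : ℂ → PeriodPair} {r s q : ℕ} {u : Fin r → ℂ → ℂ} {t : Fin s → ℂ → ℂ}
    {N : Fin q → Fin r → ℤ} {S : Fin q → ℂ → ℂ} (hU : Family U Λ u t N S) (g : ℕ) (hg : 0 < g)
    (K : ℕ → Set ℂ) (hK : ∀ k, Thin (K k) U) (ξ : ℕ → ℂ) :
    ∃ ω : ℕ → ℕ, Tendsto ω atTop atTop ∧ Monotone ω ∧ ∀ T : ℕ,
      ω T * ((box g T).filter fun a => ¬ Good (K (ω T)) Λ u t S ξ (ω T) T a).card ≤ (box g T).card := by
  obtain ⟨ω, h1, h2, h3⟩ := Pool.Agent.X255.RH.main_all (g := g) hg hU.isPreconnected hU.isOpen K
    (fun k => (hK k).2) (Pool.Agent.Y776.Fam.yfam_anT hU.fm) (indep hU) ξ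
  refine ⟨ω, h1, h2, fun T => ?_⟩
  refine le_trans (Nat.mul_le_mul_left _ (Finset.card_le_card ?_)) (h3 T)
  intro a ha
  rw [Finset.mem_filter] at ha ⊢
  refine ⟨ha.1, fun hgood => ha.2 ⟨hgood.1, hgood.2.1, ?_⟩⟩
  have h4 := hgood.2.2
  unfold NoRelation
  simp only [periods_eq]
  exact h4

end Pool.Agent.Results.MP_5d33ca_ag.RandomNumberFields
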