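import Pool.Agent.V8H91.OM.Vis

set_option autoImplicit false

/-!
# 1-motives whose abelian part has a domain of type IV, an odd-dimensional ball or a product of discs

Let `A` be an abelian variety over the field `ℚ̄` of algebraic numbers, with a polarization `φ`. Let
`P_i = exp(u_i)` and `Q_l = φ(exp(v_l))` be algebraic points of `A` and of the dual abelian variety,
`G_Q` the extension of `A` by `G_m^s` given by the `Q_l`, and `M = [ℤ^n → G_Q]` a 1-motive over `ℚ̄`
with the images `e_i ↦ R_i` above `P_i`. The periods of `M` are `2 π i`, the periods and
quasi-periods of `A`, the abelian integrals `u_i` and the integrals of the second kind `h_k(u_i)`,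
the periods of the third kind `∑ k, (h_k(v_l) λ_k - v_lk η_k)`, and the integrals of the third kind
`ℓ_il`. The points `R_i` are algebraic, and this means for the logarithms `ℓ_il` that

  `exp(ℓ_il) = q_il · θ(u_i - v_l) / (θ(u_i) θ(-v_l)) · exp(∑ k, h_k(v_l) u_ik)`, `q_il` algebraic.

We assume that the arguments of the theta functions are not in the divisor of `θ`. So we get all
1-motives over `A`, up to isogeny.

The motivic Galois group of `M` is the Mumford-Tate group `MT(M)` of the mixed Hodge structure
`H_1(M)` (Brylinski, André). The period conjecture says that the comparison isomorphism is a generic
point, over `ℚ̄`, of its torsor under the motivic Galois group of `M`. A consequence is that every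
algebraic group `G ⊆ GL(H_B(M))` over `ℚ`, with a torsor over `ℚ̄` which contains the comparison
isomorphism, contains the group `MT(M)` (in the terminology of André: `Ω^And = Ω^dRB`, for `M` and for
all motives in the tensor category generated by `M`).

Let `A` be a direct factor, up to isogeny, of an abelian variety `C` over `ℚ̄` (for example `C = A`, or
`C = A × A''` with an auxiliary `A''`). Let `𝔤` be the Lie algebra of the Hodge group of `C`.

**Visible parts** (`Visible`). We consider a direct summand `W` of the `𝔤`-module `H_1(C, ℂ)` (it need not be
defined over `ℚ` or over the real numbers; nothing is assumed about the complement of `W`; the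
scalars in the action of `𝔤` are arbitrary). It is of one of the following kinds.

* (`SpinPart`) `𝔤` acts on `W` through a sum of orthogonal Lie algebras `so(r_σ)`, `r_σ ≥ 6`, and scalars, and
  `W` is a multiple of the tensor product of their spin representations.
* (`MiddlePart`) `𝔤` acts on `W` through a sum of copies of `sl(2m)` and scalars, and `W` is a multiple of the
  tensor product of the middle exterior powers `⋀^m(ℂ^{2m})` of the standard representations.
* (`IsFamily`) `W` is the sum of a finite family of irreducible planes, such that two planes of the family
  which are not isomorphic for `[𝔤, 𝔤]` are separated: there is an automorphism of `ℂ` such that the Hodge structure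
  is pure on one of the two conjugate planes, and not on the other, or the planes are isomorphic, for `[𝔤, 𝔤]`,
  to planes on which the elements of `𝔤` have the same trace.

**The domain of `A`** (`DomainOn`). The elements of `[𝔤, 𝔤] ⊗ ℂ` which act by zero on `W` act on `H_1(A, ℂ)` by
endomorphisms which commute with the complex structure: the part of the Hodge group which acts
trivially on `W` acts trivially on the Mumford-Tate domain of `A`.

**Theorem.** Let `M` be any 1-motive over `ℚ̄` with the abelian part `A`, and let `G` be an algebraic
group over `ℚ` with a torsor over `ℚ̄` which contains the comparison isomorphism of `M`.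

1. `G` contains the derived group of `MT(M)`: it contains `exp (t Z)` for all complex numbers `t` and all
   `Z` in the derived algebra of the Lie algebra of `MT(M)` (`mtLie`: the smallest Lie algebra of rational
   matrices whose complex span contains the Lie algebra of the Deligne torus).
2. `G` contains `MT(M)` if one of the following conditions is satisfied (`CentreCondition`): `A` has no factor
   of type IV; or the centre of `𝔤` acts trivially on `A`; or the centre of `𝔤` is rigid; or the centre of `𝔤` is of
   abelian type.

There is no condition on the points; the deficient 1-motives of Ribet and Jacquinot are included.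

## Which 1-motives are these? (Explanations, not part of the statement)

By the classification of Satake and Deligne of the symplectic representations (see `SpinDomainMotives` of
MP_cbf1af_ag, `BallMotives` of MP_77d3f5_ag, `ProductsOfDiscs` of MP_caab05_ag, where this is explained)
for all abelian varieties `A` over `ℚ̄` of the following kinds there is a `C`:

* the Mumford-Tate domain of `A` is an irreducible domain of type IV and dimension at least four, and the group
  `MT(A)^ad` is simple over `ℚ`, of type `B` or `D^ℝ`: the factors of the Kuga-Satake varieties of all K3 surfaces
  and hyperkähler varieties with real multiplication by a field `F` (rank at least six over `F`); the abelian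
  varieties of dimension `4 d` with multiplication by a CM field of degree `2 d` with the signature `(2, 2)` at one
  place and `(4, 0)` or `(0, 4)` at the other places (Weil type if `d = 1`);
* the domain is a complex ball of odd dimension `2m - 1`, and `MT(A)^ad` is simple over `ℚ`: the
  abelian varieties with multiplication by a CM field of degree `2 d`, of dimension `2 m d`, with the signature
  `(1, 2m - 1)` at one place and `(0, 2m)` or `(2m, 0)` at the others; for example the Jacobians of the curves
  `y ^ 3 = f(x)`, `f` general of degree five or six;
* the domain is a product of discs: all abelian varieties which are isogenous to products of elliptic curves, abelian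
  surfaces with `End ≠ ℤ`, abelian varieties of `GL(2)`-type, abelian varieties with multiplication by a quaternion
  algebra over a totally real field `F` with `dim_F H_1 = 4` (totally indefinite) or `dim_F H_1 = 8` (totally definite),
  the fourfolds of Mumford and their generalizations, and abelian varieties with complex multiplication.

For all 1-motives over these abelian varieties `G` contains the derived group of `MT(M)`. It contains `MT(M)` if
`A` has no factor of type IV, or if the centre of `End(C) ⊗ ℚ` is a product of totally real fields and of CM
fields which are abelian over `ℚ` (after the multiplication of `C` with suitable abelian varieties with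
complex multiplication), for example an imaginary quadratic field.

For example let `A` be a fourfold of Mumford with `End(A) = ℤ`, and let `P` be a point of infinite order in
`A(ℚ̄)`, `M = [ℤ → A]`; or let `A` be the product of two such fourfolds which are not isogenous and whose
quaternion algebras have different centres. Then every group `G` contains `MT(M)`, the semidirect product of
`MT(A)` and `H_1(A', ℚ)`, `A'` the abelian subvariety generated by `P`.

Known before: `OneMotivesMumfordTate` treats the case that the Hodge group of `C` is determined by the
endomorphisms of `C`: it has no proper algebraic subgroup with the same commutant in `End(H_1(C, ℚ))`. This is proved there if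
*all of* `H_1(C, ℚ)` is a spin representation over `ℚ` (Kuga-Satake varieties), or a sum of planes for a totally indefinite
quaternion algebra, or in some cases with complex multiplication. `UnitaryOneMotives` treats domains which are balls with a
separation condition (the signature `(1, n)`, `n ≥ 2`), and division algebras of prime degree. Here only a complex summand of
`H_1(C, ℂ)` is needed: there is no condition on the centre of `𝔤` in part 1, and there can be other factors in the Hodge
group of `C` (so `C` need not be determined). The theorems on pure motives with these domains (`SpinDomainMotives`,
`BallMotives`, `ProductsOfDiscs`) do not contain 1-motives.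

Nothing is assumed about periods: `AbVar` and `AbVarG` are descriptions of abelian varieties over `ℚ̄`
by theta functions (see `Pool/Agent/Y102/AVDefs.lean`), and the transcendence theorems which are used,
the theorem of Schneider and Lang and the transcendence of `π`, are proved in this repository. The group
`G` is not assumed to be reductive.

## Proof

The image `𝔥` of the Lie algebra of `G` in the endomorphisms of `H_1(A, ℚ)`, up to the weights,
contains the logarithmic derivatives of the periods of `A`. Let `𝔮` be the Lie algebra of the
elements of `𝔤` whose restriction to `H_1(A, ℚ)` is in `𝔥`. It acts semisimply on `H_1(C, ℚ)`, with the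
commutant `End(C) ⊗ ℚ`, by the theorem of Schneider and Lang.

1. By the rigidity of the visible parts `[𝔮, 𝔮] ⊗ ℂ` and `[𝔤, 𝔤] ⊗ ℂ` have the same image in the endomorphisms
   of `W` (`Visible.cov`; from `N113.BT.RigPart.der` and `V8H77.DP.cov_kills`).
2. Let `N` be the complex structure of `H_1(A, ℝ)`. It is the restriction of an element of `𝔤 ⊗ ℝ`, hence a sum of
   the restrictions of an element of `𝔷 ⊗ ℝ`, `𝔷` the centre of `𝔤`, and of an element of `[𝔤, 𝔤] ⊗ ℝ`. By a
   theorem on real Lie algebras (`N113.BT.mem_of_sup`) the second one is the restriction of an element of
   `[𝔮, 𝔮] ⊗ ℝ` (`N_memR`, for all full subalgebras `𝔮`).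
3. So the complex structure is in the restriction of `(𝔷 + [𝔮, 𝔮]) ⊗ ℝ` (`ZZ_J'`). Let `𝔩` be the Lie algebra of the
   rational matrices which normalize the Lie algebra of the elements of the Lie algebra of `G` which act on `Gr^W` by
   weights, and whose action on `H_1(A, ℚ)` is the restriction of an element of `𝔷 + [𝔮, 𝔮]`, up to the weight. Then
   `𝔩 ⊗ ℂ` contains the Lie algebra of the Deligne torus, and `[𝔩, 𝔩]` is contained in the Lie algebra of `G` (this is the
   argument of `UnitaryOneMotives`, `OU.exists_LL`, `OU.LL_gQ`). This proves part 1.
4. If the restriction of `𝔷` is in `𝔥` then the complex structure of `H_1(A, ℝ)` is in `𝔥 ⊗ ℝ`, and the complex structure of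
   the 1-motive is in the complex span of the Lie algebra of `G` (`R917.DT.hodge_stab6`). If `A` has no factor of
   type IV then the restriction of `𝔷` is zero, because it consists of endomorphisms in the centre of `End(A) ⊗ ℚ` which are
   skew-symmetric for the polarization (`rs_CN_zero`). If `𝔷` is rigid then it is contained in `𝔮` (`OU.CN_le`), and centres of
   abelian type are rigid (`V8H77.PC.AbCen.rigid`).
-/

open Module Matrix Pool.Agent.Y102 Pool.Agent.R917.OM Pool.Agent.N208.OneM Pool.Agent.V8H91.OM

noncomputable section

namespace Pool.Agent.Results.MP_5d33ca_ag.VisibleDomains

/-- **Theorem.** Let `M` be a 1-motive over `ℚ̄` with the abelian part `A`, and let `G` be an algebraic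
group over `ℚ` with a torsor over `ℚ̄` which contains the comparison isomorphism of `M`. Let `A` be a direct
factor of an abelian variety `C` with a visible part (a spin part, a middle exterior part, or a family of
planes), given by the condition `V`, such that the part of the Hodge group of `C` which acts trivially on the
visible part acts trivially on the Mumford-Tate domain of `A`.

1. `G` contains `exp (t Z)` for all complex numbers `t` and all `Z` in the derived algebra of the Lie algebra
   of the Mumford-Tate group of `M`.
2. If `A` has no factor of type IV, or if the centre of the Lie algebra of the Hodge group of `C` acts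
   trivially on `A`, or is rigid, or is of abelian type, then the Mumford-Tate group of `M` is contained
   in `G`. -/
theorem result (g n s : ℕ) (A : AbVarG g) (u : Fin n → Fin g → ℂ) (v : Fin s → Fin g → ℂ)
    (ℓ : Fin n → Fin s → ℂ) (hM : IsOneMotive A u v ℓ)
    (G : Subgroup (GL (Betti g n s) ℂ)) (hG : IsAlgebraicSubgroup G)
    (hP : ContainsPeriods A u v ℓ G) (g' : ℕ) (C : AbVar g') (f : A.toAbVar.H1 →ₗ[ℚ] C.H1)
    (p : C.H1 →ₗ[ℚ] A.toAbVar.H1) (hF : IsFactor A.toAbVar C f p) (V : EndC C → Prop)
    (hV : Visible C V) (hD : DomainOn A.toAbVar C f p V) :
    (∀ Z ∈ derived (mtLie A u v ℓ), ∀ t : ℂ, IsIn G (NormedSpace.exp (t • cplx Z))) ∧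
    (CentreCondition A.toAbVar C f p → mumfordTate A u v ℓ ≤ G) :=
  ⟨fun _ hZ t => final_der hM hG hP hF hV hD hZ t, fun hc => final_mt hM hG hP hF hV hD hc⟩

end Pool.Agent.Results.MP_5d33ca_ag.VisibleDomains
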